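import Pool.Agent.Helper140_W.Wt

set_option autoImplicit false
set_option linter.unusedSectionVars false

/-! The reduction step. -/

namespace Pool.Agent.Helper140_W

open Matrix
open scoped commutatorElement
open Pool.Agent.Y35.KC.TTm TH57.Thr TH57.TT2 Pool.Agent.Y75.Th

variable {Γ : Type} [Group Γ] {κ : Type} [Fintype κ] [DecidableEq κ]

theorem sum_sub_erase (y : κ) (f : κ → ℕ) :
    ∑ l : {l : κ // l ≠ y}, f l = ∑ l ∈ Finset.univ.erase y, f l := by
  have h1 := sum_spl y f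
  have h2 := Finset.add_sum_erase Finset.univ f (Finset.mem_univ y)
  omega

/-- block diagonal matrices -/
noncomputable def blk {μ : Type} [Fintype μ] [DecidableEq μ] (x : (Matrix κ κ (MonoidAlgebra ℤ Γ))ˣ)
    (z : (Matrix μ μ (MonoidAlgebra ℤ Γ))ˣ) :
    (Matrix (κ ⊕ μ) (κ ⊕ μ) (MonoidAlgebra ℤ Γ))ˣ where
  val := fromBlocks x.val 0 0 z.val
  inv := fromBlocks (x⁻¹).val 0 0 (z⁻¹).val
  val_inv := by
    rw [fromBlocks_multiply]
    simp
  inv_val := by
    rw [fromBlocks_multiply]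
    simp

section blk

variable {μ : Type} [Fintype μ] [DecidableEq μ]

theorem blk_mul (x x' : (Matrix κ κ (MonoidAlgebra ℤ Γ))ˣ) (z z' : (Matrix μ μ (MonoidAlgebra ℤ Γ))ˣ) :
    blk (x * x') (z * z') = blk x z * blk x' z' := by
  apply Units.ext
  change fromBlocks (x * x').val 0 0 (z * z').val
    = fromBlocks x.val 0 0 z.val * fromBlocks x'.val 0 0 z'.val
  rw [fromBlocks_multiply]
  simp

theorem blk_inv (x : (Matrix κ κ (MonoidAlgebra ℤ Γ))ˣ) (z : (Matrix μ μ (MonoidAlgebra ℤ Γ))ˣ) :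
    (blk x z)⁻¹ = blk x⁻¹ z⁻¹ := by
  apply Units.ext
  rfl

theorem blk_one (x : (Matrix κ κ (MonoidAlgebra ℤ Γ))ˣ) :
    blk x (1 : (Matrix μ μ (MonoidAlgebra ℤ Γ))ˣ) = Units.map (stm μ) x := by
  apply Units.ext
  rfl

theorem TT_blk_one (x : (Matrix κ κ (MonoidAlgebra ℤ Γ))ˣ) (hx : TT (TU Γ) x) :
    TT (TU Γ) (blk x (1 : (Matrix μ μ (MonoidAlgebra ℤ Γ))ˣ)) := by
  rw [blk_one]; exact TT_st _ _ hx

/-- multiplication of the first block with trivial matrices -/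
theorem TT_blk_mul (e f x : (Matrix κ κ (MonoidAlgebra ℤ Γ))ˣ)
    (z : (Matrix μ μ (MonoidAlgebra ℤ Γ))ˣ) (he : TT (TU Γ) e) (hf : TT (TU Γ) f)
    (h : TT (TU Γ) (blk x z)) : TT (TU Γ) (blk (e * x * f) z) := by
  have h1 : blk (e * x * f) z = blk e 1 * blk x z * blk f 1 := by
    rw [← blk_mul, ← blk_mul, one_mul, mul_one]
  rw [h1]
  exact TT_mul _ _ _ (TT_mul _ _ _ (TT_blk_one e he) h) (TT_blk_one f hf)

theorem TT_blk_inv (x : (Matrix κ κ (MonoidAlgebra ℤ Γ))ˣ) (z : (Matrix μ μ (MonoidAlgebra ℤ Γ))ˣ)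
    (h : TT (TU Γ) (blk x z)) : TT (TU Γ) (blk x⁻¹ z⁻¹) := by
  rw [← blk_inv]; exact TT_inv _ _ h

/-- the block diagonal matrix with blocks `x`, `x⁻¹` -/
theorem TT_blk_self (x : (Matrix κ κ (MonoidAlgebra ℤ Γ))ˣ) : TT (TU Γ) (blk x x⁻¹) := by
  apply TT_of_mem
  apply commutator_le_HH
  let P : (Matrix (κ ⊕ κ) (κ ⊕ κ) (MonoidAlgebra ℤ Γ))ˣ := pu (Equiv.sumComm κ κ)
  have h1 : blk x x⁻¹ = ⁅blk x (1 : (Matrix κ κ (MonoidAlgebra ℤ Γ))ˣ), P⁆ := by
    have h2 : P * (blk x (1 : (Matrix κ κ (MonoidAlgebra ℤ Γ))ˣ))⁻¹ * P⁻¹ = blk 1 x⁻¹ := by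
      rw [← re_eq]
      apply Units.ext
      ext1 i j
      rcases i with i | i <;> rcases j with j | j
      · change ((1 : (Matrix κ κ (MonoidAlgebra ℤ Γ))ˣ)⁻¹).val i j
          = (1 : (Matrix κ κ (MonoidAlgebra ℤ Γ))ˣ).val i j
        rw [inv_one]
      · rfl
      · rfl
      · rfl
    rw [commutatorElement_def, mul_assoc (blk x 1 : (Matrix (κ ⊕ κ) (κ ⊕ κ) (MonoidAlgebra ℤ Γ))ˣ),
      mul_assoc (blk x 1 : (Matrix (κ ⊕ κ) (κ ⊕ κ) (MonoidAlgebra ℤ Γ))ˣ), h2, ← blk_mul,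
      mul_one, one_mul]
  rw [h1, commutator_def]
  exact Subgroup.commutator_mem_commutator (Subgroup.mem_top _) (Subgroup.mem_top _)

/-- reindexing -/
noncomputable def reU (e : μ ≃ κ) (x : (Matrix κ κ (MonoidAlgebra ℤ Γ))ˣ) :
    (Matrix μ μ (MonoidAlgebra ℤ Γ))ˣ := Units.map (re e) x

theorem reU_val (e : μ ≃ κ) (x : (Matrix κ κ (MonoidAlgebra ℤ Γ))ˣ) (i j : μ) :
    (reU e x).val i j = x.val (e i) (e j) := rfl

theorem reU_inv (e : μ ≃ κ) (x : (Matrix κ κ (MonoidAlgebra ℤ Γ))ˣ) (i j : μ) :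
    ((reU e x)⁻¹).val i j = (x⁻¹).val (e i) (e j) := rfl

/-- and its reindexed form -/
theorem TT_blk_re (e : μ ≃ κ) (x : (Matrix κ κ (MonoidAlgebra ℤ Γ))ˣ) :
    TT (TU Γ) (blk x (reU e x)⁻¹) := by
  have h1 := TT_re (TU Γ) (Equiv.sumCongr (Equiv.refl κ) e) _ (TT_blk_self x)
  convert h1 using 1
  apply Units.ext
  ext1 i j
  rcases i with i | i <;> rcases j with j | j
  · rfl
  · rfl
  · rfl
  · rfl

/-- deleting a trivial row -/
theorem del (x : (Matrix κ κ (MonoidAlgebra ℤ Γ))ˣ) (i : κ) (v : (MonoidAlgebra ℤ Γ)ˣ)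
    (hv : v ∈ TU Γ) (hx : x.val i = Pi.single i (v : MonoidAlgebra ℤ Γ)) :
    ∃ x' : (Matrix {l : κ // l ≠ i} {l : κ // l ≠ i} (MonoidAlgebra ℤ Γ))ˣ,
      (∀ a b, x'.val a b = x.val a b) ∧ (∀ a b, (x'⁻¹).val a b = (x⁻¹).val a b) ∧
      (∀ (μ : Type) [Fintype μ] [DecidableEq μ] (z : (Matrix μ μ (MonoidAlgebra ℤ Γ))ˣ),
        TT (TU Γ) (blk x' z) → TT (TU Γ) (blk x z)) := by
  have h1 : ∀ b, b ≠ i → (x⁻¹).val i b = 0 := by
    intro b hb
    have e1 : (x.val * (x⁻¹).val) i b = 0 := by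
      rw [Units.mul_inv, Matrix.one_apply_ne hb.symm]
    rw [Matrix.mul_apply, Finset.sum_eq_single i] at e1
    · rw [hx, Pi.single_eq_same] at e1
      exact (Units.mul_right_eq_zero v).1 e1
    · intro c _ hc
      rw [hx, Pi.single_eq_of_ne hc, zero_mul]
    · intro h; exact absurd (Finset.mem_univ i) h
  have h2 : ∀ b, b ≠ i → x.val i b = 0 := by
    intro b hb
    rw [hx, Pi.single_eq_of_ne hb]
  let x' : (Matrix {l : κ // l ≠ i} {l : κ // l ≠ i} (MonoidAlgebra ℤ Γ))ˣ :=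
    { val := fun a b => x.val a b
      inv := fun a b => (x⁻¹).val a b
      val_inv := by
        ext1 a b
        rw [Matrix.mul_apply]
        have e1 : (x.val * (x⁻¹).val) a b = (1 : Matrix κ κ (MonoidAlgebra ℤ Γ)) a b := by
          rw [Units.mul_inv]
        rw [Matrix.mul_apply, sum_spl i, h1 b b.2, mul_zero, zero_add] at e1
        rw [e1, Matrix.one_apply, Matrix.one_apply]
        simp only [Subtype.ext_iff]
      inv_val := by
        ext1 a b
        rw [Matrix.mul_apply]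
        have e1 : ((x⁻¹).val * x.val) a b = (1 : Matrix κ κ (MonoidAlgebra ℤ Γ)) a b := by
          rw [Units.inv_mul]
        rw [Matrix.mul_apply, sum_spl i, h2 b b.2, mul_zero, zero_add] at e1
        rw [e1, Matrix.one_apply, Matrix.one_apply]
        simp only [Subtype.ext_iff] }
  refine ⟨x', fun _ _ => rfl, fun _ _ => rfl, fun μ _ _ z ht => ?_⟩
  let e : (Unit ⊕ ({l : κ // l ≠ i} ⊕ μ)) ≃ (κ ⊕ μ) :=
    (Equiv.sumAssoc Unit {l : κ // l ≠ i} μ).symm.trans (Equiv.sumCongr (spl i) (Equiv.refl μ))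
  have h3 : TT (TU Γ) (Units.map (re e) (blk x z)) := by
    refine TT_tri (TU Γ) (Units.map (dgm ()) v) (blk x' z)
      (Matrix.of fun a _ => Sum.elim (fun a : {l : κ // l ≠ i} => x.val a i) (fun _ => 0) a) _ ?_
      (TT_of_mem _ _ (dgm_mem_HH _ _ v hv)) ht
    ext1 a b
    rcases a with a | (a | a) <;> rcases b with b | (b | b)
    · change x.val i i = dgm () (v : MonoidAlgebra ℤ Γ) a b
      rw [hx, Pi.single_eq_same, dgm_apply, Subsingleton.elim a (), Subsingleton.elim b ()]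
      simp
    · change x.val i b = 0
      exact h2 b b.2
    · rfl
    · rfl
    · rfl
    · rfl
    · rfl
    · rfl
    · rfl
  have h4 := TT_re (TU Γ) e.symm _ h3
  convert h4 using 1
  apply Units.ext
  ext1 a b
  change (blk x z).val a b = (blk x z).val (e (e.symm a)) (e (e.symm b))
  rw [Equiv.apply_symm_apply, Equiv.apply_symm_apply]

end blk

theorem vm_tv (p q : κ) (h : p ≠ q) (c : MonoidAlgebra ℤ Γ) (s : κ → MonoidAlgebra ℤ Γ) (l : κ) :
    (s ᵥ* (tv p q h c).val) l = s l + if l = q then s p * c else 0 := by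
  change (s ᵥ* (1 + Matrix.single p q c)) l = _
  rw [Matrix.vecMul_add, Matrix.vecMul_one, Pi.add_apply]
  congr 1
  rw [Matrix.vecMul, dotProduct, Finset.sum_eq_single p]
  · by_cases hl : l = q
    · subst hl; simp
    · rw [if_neg hl, Matrix.single_apply_of_ne]
      · rw [mul_zero]
      · rintro ⟨-, h2⟩; exact hl h2.symm
  · intro k _ hk
    rw [Matrix.single_apply_of_ne]
    · rw [mul_zero]
    · rintro ⟨h1, -⟩; exact hk h1.symm
  · intro h; exact absurd (Finset.mem_univ p) h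

theorem tv_mul_row (p q : κ) (h : p ≠ q) (c : MonoidAlgebra ℤ Γ)
    (M : Matrix κ κ (MonoidAlgebra ℤ Γ)) (k : κ) (hk : k ≠ p) :
    ((tv p q h c).val * M) k = M k := by
  change ((1 + Matrix.single p q c) * M) k = _
  funext l
  rw [add_mul, one_mul, Matrix.add_apply, Matrix.single_mul_apply_of_ne _ _ _ _ _ hk, add_zero]

theorem tv_mul_same (p q : κ) (h : p ≠ q) (c : MonoidAlgebra ℤ Γ)
    (M : Matrix κ κ (MonoidAlgebra ℤ Γ)) :
    ((tv p q h c).val * M) p = fun l => M p l + c * M q l := by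
  change ((1 + Matrix.single p q c) * M) p = _
  funext l
  rw [add_mul, one_mul, Matrix.add_apply, Matrix.single_mul_apply_same]

theorem tv_inv (p q : κ) (h : p ≠ q) (c : MonoidAlgebra ℤ Γ) :
    (tv p q h c)⁻¹ = tv p q h (-c) := by
  apply Units.ext
  change 1 - Matrix.single p q c = 1 + Matrix.single p q (-c)
  rw [sub_eq_add_neg, Matrix.single_neg]

theorem wt_tv (p q : κ) (h : p ≠ q) (c : MonoidAlgebra ℤ Γ) (hc : UZ (TU Γ) c)
    (s : κ → MonoidAlgebra ℤ Γ) :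
    ∑ l ∈ Finset.univ.erase p, l1 ((s ᵥ* (tv p q h c).val) l) ≤ wt s := by
  have h1 : ∑ l ∈ Finset.univ.erase p, l1 ((s ᵥ* (tv p q h c).val) l)
      ≤ ∑ l ∈ Finset.univ.erase p, (l1 (s l) + if l = q then l1 (s p) else 0) := by
    refine Finset.sum_le_sum fun l _ => ?_
    rw [vm_tv]
    split_ifs with hl
    · exact le_trans (l1_add _ _) (Nat.add_le_add_left (l1_ur_le _ _ hc) _)
    · rw [add_zero, add_zero]
  refine le_trans h1 (le_of_eq ?_)
  rw [Finset.sum_add_distrib, Finset.sum_ite_eq', if_pos (Finset.mem_erase.2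
    ⟨h.symm, Finset.mem_univ q⟩)]
  unfold wt
  rw [← Finset.add_sum_erase Finset.univ (fun j => l1 (s j)) (Finset.mem_univ p), add_comm]

theorem aug2_TU (u : (MonoidAlgebra ℤ Γ)ˣ) (hu : u ∈ TU Γ) :
    aug2 (u : MonoidAlgebra ℤ Γ) = 1 := by
  obtain ⟨g, ε, h⟩ := hu
  rw [h, aug2_single]
  rcases Int.units_eq_one_or ε with rfl | rfl <;> decide

/-- column operation which simplifies a vector of norm at most two -/
theorem colF [Nonempty κ] (r : κ → MonoidAlgebra ℤ Γ) (hr : wt r ≤ 2)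
    (hp : ∀ p t, r = Pi.single p t → aug2 t = 1) :
    ∃ (p : κ) (v : (MonoidAlgebra ℤ Γ)ˣ) (F : (Matrix κ κ (MonoidAlgebra ℤ Γ))ˣ), v ∈ TU Γ ∧
      TT (TU Γ) F ∧ r ᵥ* F.val = Pi.single p (v : MonoidAlgebra ℤ Γ) ∧
      (∀ s : κ → MonoidAlgebra ℤ Γ, ∑ l ∈ Finset.univ.erase p, l1 ((s ᵥ* F.val) l) ≤ wt s) ∧
      (∀ (M : Matrix κ κ (MonoidAlgebra ℤ Γ)) k, k ≠ p → ((F⁻¹).val * M) k = M k) := by
  have key1 : ∀ (p : κ) (v : (MonoidAlgebra ℤ Γ)ˣ), v ∈ TU Γ →
      r = Pi.single p (v : MonoidAlgebra ℤ Γ) →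
      ∃ (p : κ) (v : (MonoidAlgebra ℤ Γ)ˣ) (F : (Matrix κ κ (MonoidAlgebra ℤ Γ))ˣ), v ∈ TU Γ ∧
      TT (TU Γ) F ∧ r ᵥ* F.val = Pi.single p (v : MonoidAlgebra ℤ Γ) ∧
      (∀ s : κ → MonoidAlgebra ℤ Γ, ∑ l ∈ Finset.univ.erase p, l1 ((s ᵥ* F.val) l) ≤ wt s) ∧
      (∀ (M : Matrix κ κ (MonoidAlgebra ℤ Γ)) k, k ≠ p → ((F⁻¹).val * M) k = M k) := by
    intro p v hv hr1
    refine ⟨p, v, 1, hv, TT_one _, ?_, ?_, ?_⟩
    · rw [Units.val_one, Matrix.vecMul_one, hr1]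
    · intro s
      rw [Units.val_one, Matrix.vecMul_one]
      exact Finset.sum_le_sum_of_subset (Finset.erase_subset _ _)
    · intro M k _
      rw [inv_one, Units.val_one, one_mul]
  obtain ⟨c, c', x, x', hx, hx', hrr⟩ := two_of_l1 r hr
  by_cases hc : c = c'
  · subst hc
    rw [← Pi.single_add] at hrr
    have h1 := hp c (x + x') hrr
    rcases hx with rfl | ⟨u, hu, rfl⟩ <;> rcases hx' with rfl | ⟨u', hu', rfl⟩
    · simp at h1
    · rw [zero_add] at hrr; exact key1 c u' hu' hrr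
    · rw [add_zero] at hrr; exact key1 c u hu hrr
    · rw [map_add, aug2_TU u hu, aug2_TU u' hu'] at h1
      exact absurd h1 (by decide)
  · rcases hx with rfl | ⟨u, hu, rfl⟩ <;> rcases hx' with rfl | ⟨u', hu', rfl⟩
    · have h1 := hp c 0 (by rw [hrr]; simp)
      rw [map_zero] at h1
      exact absurd h1 (by decide)
    · rw [Pi.single_zero, zero_add] at hrr; exact key1 c' u' hu' hrr
    · rw [Pi.single_zero, add_zero] at hrr; exact key1 c u hu hrr
    · have hz : UZ (TU Γ) (-((u⁻¹ * u' : (MonoidAlgebra ℤ Γ)ˣ) : MonoidAlgebra ℤ Γ)) :=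
        UZ.neg neg_mem (UZ.of_mem ((TU Γ).mul_mem ((TU Γ).inv_mem hu) hu'))
      refine ⟨c, u, tv c c' hc (-((u⁻¹ * u' : (MonoidAlgebra ℤ Γ)ˣ) : MonoidAlgebra ℤ Γ)), hu,
        TT_tv _ _ _ _ _, ?_, wt_tv _ _ _ _ hz, ?_⟩
      · funext l
        rw [vm_tv, hrr, Pi.add_apply, Pi.add_apply, Pi.single_eq_same,
          Pi.single_eq_of_ne hc, add_zero]
        by_cases hl : l = c'
        · subst hl
          rw [if_pos rfl, Pi.single_eq_of_ne (Ne.symm hc), Pi.single_eq_same, zero_add, mul_neg,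
            Units.val_mul, ← mul_assoc, Units.mul_inv, one_mul, add_neg_cancel,
            ]
        · rw [if_neg hl, Pi.single_eq_of_ne hl, add_zero, add_zero]
      · intro M k hk
        rw [tv_inv]
        exact tv_mul_row _ _ _ _ _ _ hk

/-- **Reduction.** -/
theorem red (B : (Matrix κ κ (MonoidAlgebra ℤ Γ))ˣ) (y : κ) (E : (Matrix κ κ (MonoidAlgebra ℤ Γ))ˣ) (hE : TT (TU Γ) E)
    (hE1 : ∀ k, k ≠ y → (E.val * B.val) k = B.val k)
    (hE2 : ∀ s : κ → MonoidAlgebra ℤ Γ,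
      ∑ l ∈ Finset.univ.erase y, l1 ((s ᵥ* (E⁻¹).val) l) ≤ wt s)
    (hw : wt ((E.val * B.val) y) ≤ 2) :
    ∃ (B' : (Matrix {l : κ // l ≠ y} {l : κ // l ≠ y} (MonoidAlgebra ℤ Γ))ˣ)
      (τ : {l : κ // l ≠ y} → κ), Function.Injective τ ∧
      (∀ i, wt ((B'⁻¹).val i) ≤ wt ((B⁻¹).val (τ i))) ∧ (∀ i, wt (B'.val i) ≤ wt (B.val i)) ∧
      ∀ (μ : Type) [Fintype μ] [DecidableEq μ] (z : (Matrix μ μ (MonoidAlgebra ℤ Γ))ˣ),
        TT (TU Γ) (blk B' z) → TT (TU Γ) (blk B z) := by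
  have : Nonempty κ := ⟨y⟩
  have hp : ∀ p t, (E.val * B.val) y = Pi.single p t → aug2 t = 1 := by
    intro p t ht
    have e1 : ((E * B).val * ((E * B)⁻¹).val) y y = 1 := by
      rw [Units.mul_inv, Matrix.one_apply_eq]
    rw [Matrix.mul_apply, Finset.sum_eq_single p] at e1
    · have e2 : (E * B).val y p = t := by
        rw [Units.val_mul, ht, Pi.single_eq_same]
      rw [e2] at e1
      have e3 := congrArg aug2 e1
      rw [map_mul, map_one] at e3
      generalize aug2 t = z at e3 ⊢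
      generalize aug2 (((E * B)⁻¹).val p y) = z' at e3
      revert z z'; decide
    · intro c _ hc
      rw [Units.val_mul, ht, Pi.single_eq_of_ne hc, zero_mul]
    · intro h; exact absurd (Finset.mem_univ p) h
  obtain ⟨p, v, F, hv, hF, hF1, hF2, hF3⟩ := colF _ hw hp
  let σ : κ ≃ κ := Equiv.swap y p
  have hσ : ∀ l, l ≠ y → σ l ≠ p := by
    intro l hl h
    apply hl
    have : σ l = σ y := by rw [h]; exact (Equiv.swap_apply_left y p).symm
    exact σ.injective this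
  let X : (Matrix κ κ (MonoidAlgebra ℤ Γ))ˣ := E * B * F
  let B3 : (Matrix κ κ (MonoidAlgebra ℤ Γ))ˣ := X * (pu σ)⁻¹
  have hB3 : ∀ i l, B3.val i l = X.val i (σ l) := by
    intro i l
    have e1 : B3.val = X.val.submatrix id σ := by
      change X.val * (1 : Matrix κ κ (MonoidAlgebra ℤ Γ)).submatrix id σ = _
      rw [← Matrix.submatrix_id_id X.val, ← Matrix.submatrix_mul _ _ id id σ
        Function.bijective_id, Matrix.mul_one, Matrix.submatrix_id_id]
    rw [e1]; rfl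
  have hB3i : ∀ i l, (B3⁻¹).val i l = (X⁻¹).val (σ i) l := by
    intro i l
    have e1 : (B3⁻¹).val = (X⁻¹).val.submatrix σ id := by
      have e2 : B3⁻¹ = pu σ * X⁻¹ := by
        change (X * (pu σ)⁻¹)⁻¹ = _
        group
      rw [e2]
      change (1 : Matrix κ κ (MonoidAlgebra ℤ Γ)).submatrix σ id * (X⁻¹).val = _
      rw [← Matrix.submatrix_id_id (X⁻¹).val, ← Matrix.submatrix_mul _ _ σ id id
        Function.bijective_id, Matrix.one_mul, Matrix.submatrix_id_id]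
    rw [e1]; rfl
  have hX : ∀ i, X.val i = (E.val * B.val) i ᵥ* F.val := fun i => rfl
  have hXi : ∀ i, i ≠ p → (X⁻¹).val i = (B⁻¹).val i ᵥ* (E⁻¹).val := by
    intro i hi
    have e2 : X⁻¹ = F⁻¹ * (B⁻¹ * E⁻¹) := by
      change (E * B * F)⁻¹ = _
      group
    rw [e2, Units.val_mul, hF3 _ i hi]
    rfl
  have hy : B3.val y = Pi.single y (v : MonoidAlgebra ℤ Γ) := by
    funext l
    rw [hB3, hX, hF1]
    by_cases hl : l = y
    · subst hl
      rw [Pi.single_eq_same, show σ l = p from Equiv.swap_apply_left l p, Pi.single_eq_same]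
    · rw [Pi.single_eq_of_ne hl, Pi.single_eq_of_ne (hσ l hl)]
  obtain ⟨x', hx1, hx2, hx3⟩ := del B3 y v hv hy
  refine ⟨x', fun i => σ i, fun i j hij => Subtype.ext (σ.injective hij), ?_, ?_, ?_⟩
  · intro i
    have e1 : wt ((x'⁻¹).val i) = ∑ l ∈ Finset.univ.erase y,
        l1 (((B⁻¹).val (σ i) ᵥ* (E⁻¹).val) l) := by
      rw [← sum_sub_erase y (fun l => l1 (((B⁻¹).val (σ i) ᵥ* (E⁻¹).val) l))]
      refine Finset.sum_congr rfl fun l _ => ?_
      rw [hx2, hB3i, hXi _ (hσ i i.2)]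
    rw [e1]
    exact hE2 _
  · intro i
    have e1 : wt (x'.val i) = ∑ l ∈ Finset.univ.erase p,
        l1 ((B.val i ᵥ* F.val) l) := by
      have e2 : wt (x'.val i) = ∑ l ∈ Finset.univ.erase y,
          l1 ((B.val i ᵥ* F.val) (σ l)) := by
        rw [← sum_sub_erase y (fun l => l1 ((B.val i ᵥ* F.val) (σ l)))]
        refine Finset.sum_congr rfl fun l _ => ?_
        rw [hx1, hB3, hX, hE1 i i.2]
      rw [e2]
      have e3 := Equiv.sum_comp σ (fun l => l1 ((B.val i ᵥ* F.val) l))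
      rw [← Finset.add_sum_erase Finset.univ _ (Finset.mem_univ y),
        ← Finset.add_sum_erase Finset.univ (fun l => l1 ((B.val i ᵥ* F.val) l))
          (Finset.mem_univ p)] at e3
      rw [show σ y = p from Equiv.swap_apply_left y p] at e3
      exact Nat.add_left_cancel e3
    rw [e1]
    exact hF2 _
  · intro μ _ _ z hz
    have h2 := hx3 μ z hz
    have h3 : B = E⁻¹ * (1 * B3 * pu σ) * F⁻¹ := by
      change B = E⁻¹ * (1 * (E * B * F * (pu σ)⁻¹) * pu σ) * F⁻¹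
      group
    rw [h3]
    exact TT_blk_mul _ _ _ _ (TT_inv _ _ hE) (TT_inv _ _ hF)
      (TT_blk_mul _ _ _ _ (TT_one _) (TT_pu σ) h2)

end Pool.Agent.Helper140_W
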