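import Pool.Agent.Helper140_W.Wt

set_option autoImplicit false
set_option linter.unusedSectionVars false

/-! Vectors of norm three with large cancellation. -/

namespace Pool.Agent.Helper140_W

open Pool.Agent.Y35.KC.TTm TH57.Thr TH57.TT2

variable {Γ : Type} [Group Γ] {κ : Type} [Fintype κ] [DecidableEq κ]

theorem mo_add (j : κ) (g : Γ) (m n : ℤ) :
    (mo j g m : κ → MonoidAlgebra ℤ Γ) + mo j g n = mo j g (m + n) := by
  unfold mo
  rw [← Pi.single_add, MonoidAlgebra.single_add]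

theorem mo_zero (j : κ) (g : Γ) : (mo j g 0 : κ → MonoidAlgebra ℤ Γ) = 0 := by
  unfold mo
  rw [MonoidAlgebra.single_zero, Pi.single_zero]

theorem wt_mo_unit (j : κ) (g : Γ) (ε : ℤˣ) : wt (mo j g (ε : ℤ) : κ → MonoidAlgebra ℤ Γ) = 1 := by
  rw [wt_mo, Int.units_natAbs]

theorem unit_sq (ε : ℤˣ) : (ε : ℤ) * (ε : ℤ) = 1 := Int.units_coe_mul_self ε

/-- two signed unit vectors at different positions -/
theorem wt_two (i j : κ) (g h : Γ) (ε δ : ℤˣ) (hne : ¬ (i = j ∧ g = h)) :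
    wt (mo i g (ε : ℤ) + mo j h (δ : ℤ) : κ → MonoidAlgebra ℤ Γ) = 2 := by
  have h1 := wt_ext (mo i g (ε : ℤ) + mo j h (δ : ℤ) : κ → MonoidAlgebra ℤ Γ) i g ε (by
    rw [Pi.add_apply, cf_add, mo_cf, mo_cf, if_pos ⟨rfl, rfl⟩, if_neg hne, add_zero, unit_sq]
    exact one_pos)
  rw [add_sub_cancel_left, wt_mo_unit] at h1
  exact h1.symm

/-- A vector of norm three which loses norm under `1 + ε h`. -/
theorem chain (h : Γ) (h1 : h ≠ 1) (h2 : h * h ≠ 1) (ε : ℤˣ) (v : κ → MonoidAlgebra ℤ Γ)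
    (hv : wt v = 3) (hs : wt (v + lm h ε v) ≤ 2) :
    ∃ (j : κ) (g : Γ) (δ : ℤˣ),
      v = mo j g (δ : ℤ) + mo j (h * g) (-((ε : ℤ) * δ)) + mo j (h * (h * g)) (δ : ℤ) := by
  classical
  obtain ⟨j, a, ha⟩ := wt_can v (lm h ε v) (by rw [wt_lm, hv]; omega)
  rw [lm_cf] at ha
  obtain ⟨s, rfl⟩ : ∃ s, a = h * s := ⟨h⁻¹ * a, by group⟩
  rw [inv_mul_cancel_left] at ha
  have hs0 : (v j).coeff s ≠ 0 := by
    intro h0
    rw [h0, mul_zero, mul_zero] at ha
    exact lt_irrefl _ ha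
  obtain ⟨δ, hδ⟩ := exists_sgn _ hs0
  have hne1 : h * s ≠ s := fun h0 => h1 (by simpa using h0)
  have hne2 : h * (h * s) ≠ s := fun h0 => h2 (by rw [← mul_assoc] at h0; simpa using h0)
  have hδ2 : 0 < (v j).coeff (h * s) * ((-(ε * δ) : ℤˣ) : ℤ) := by
    push_cast
    rcases Int.units_eq_one_or ε with rfl | rfl <;> rcases Int.units_eq_one_or δ with rfl | rfl <;>
      simp only [Units.val_one, Units.val_neg, mul_one, one_mul, mul_neg, neg_mul, neg_neg] at * <;>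
      nlinarith
  have w1 := wt_ext v j s δ hδ
  have w2 := wt_ext (v - mo j s (δ : ℤ)) j (h * s) (-(ε * δ)) (by
    rw [Pi.sub_apply, cf_sub, mo_cf, if_neg (fun hh => hne1 hh.2), sub_zero]
    exact hδ2)
  obtain ⟨i, b, γ, hc⟩ := wt_one (v - mo j s (δ : ℤ) - mo j (h * s) ((-(ε * δ) : ℤˣ) : ℤ)) (by omega)
  have hv2 : v = mo j s (δ : ℤ) + mo j (h * s) (-((ε : ℤ) * δ)) + mo i b (γ : ℤ) := by
    have : v = mo j s (δ : ℤ) + mo j (h * s) ((-(ε * δ) : ℤˣ) : ℤ)
        + (v - mo j s (δ : ℤ) - mo j (h * s) ((-(ε * δ) : ℤˣ) : ℤ)) := by abel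
    rw [hc] at this
    rw [this]
    push_cast
    rfl
  have hP : wt (mo j s (δ : ℤ) + mo j (h * (h * s)) ((-δ : ℤˣ) : ℤ) : κ → MonoidAlgebra ℤ Γ) = 2 :=
    wt_two _ _ _ _ _ _ (fun hh => hne2 hh.2.symm)
  have hQ : wt (mo i b (γ : ℤ) + mo i (h * b) ((ε * γ : ℤˣ) : ℤ) : κ → MonoidAlgebra ℤ Γ) = 2 :=
    wt_two _ _ _ _ _ _ (fun hh => h1 (by have := hh.2; simpa using this.symm))
  have hsum : v + lm h ε v = (mo j s (δ : ℤ) + mo j (h * (h * s)) ((-δ : ℤˣ) : ℤ))
      + (mo i b (γ : ℤ) + mo i (h * b) ((ε * γ : ℤˣ) : ℤ)) := by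
    conv_lhs => rw [hv2]
    rw [lm_add, lm_add, lm_mo, lm_mo, lm_mo]
    have e1 : (ε : ℤ) * -((ε : ℤ) * δ) = ((-δ : ℤˣ) : ℤ) := by
      push_cast
      rw [mul_neg, ← mul_assoc, unit_sq, one_mul]
    have e2 : (mo j (h * s) (-((ε : ℤ) * δ)) : κ → MonoidAlgebra ℤ Γ) + mo j (h * s) ((ε : ℤ) * δ)
        = 0 := by
      rw [mo_add, neg_add_cancel, mo_zero]
    rw [e1, Units.val_mul]
    calc _ = mo j s (δ : ℤ) + mo j (h * (h * s)) ((-δ : ℤˣ) : ℤ)
      + (mo i b (γ : ℤ) + mo i (h * b) ((ε : ℤ) * γ))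
      + ((mo j (h * s) (-((ε : ℤ) * δ)) : κ → MonoidAlgebra ℤ Γ) + mo j (h * s) ((ε : ℤ) * δ)) := by
          abel
      _ = _ := by rw [e2, add_zero]
  rw [hsum] at hs
  obtain ⟨k, a, hka⟩ := wt_can _ _ (by rw [hP, hQ]; omega :
    wt ((mo j s (δ : ℤ) + mo j (h * (h * s)) ((-δ : ℤˣ) : ℤ))
      + (mo i b (γ : ℤ) + mo i (h * b) ((ε * γ : ℤˣ) : ℤ)) : κ → MonoidAlgebra ℤ Γ) < _)
  rw [Pi.add_apply, Pi.add_apply, cf_add, cf_add, mo_cf, mo_cf, mo_cf, mo_cf] at hka
  have hb : b ≠ h * b := fun h0 => h1 (by simpa using h0.symm)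
  by_cases c1 : k = j ∧ a = s
  · obtain ⟨rfl, rfl⟩ := c1
    rw [if_pos ⟨rfl, rfl⟩, if_neg (fun hh => hne2 hh.2.symm), add_zero] at hka
    by_cases c2 : k = i ∧ a = b
    · obtain ⟨rfl, rfl⟩ := c2
      rw [if_pos ⟨rfl, rfl⟩, if_neg (fun hh => hb hh.2), add_zero] at hka
      exfalso
      have e1 : (δ : ℤ) + γ = 0 := by
        rcases Int.units_eq_one_or γ with rfl | rfl <;>
          rcases Int.units_eq_one_or δ with rfl | rfl <;> simp at hka ⊢
      have e2 : v = mo k (h * a) ((-(ε * δ) : ℤˣ) : ℤ) := by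
        rw [hv2, add_right_comm, mo_add, e1, mo_zero, zero_add]
        push_cast
        rfl
      rw [e2, wt_mo_unit] at hv
      exact absurd hv (by norm_num)
    · rw [if_neg c2, zero_add] at hka
      by_cases c3 : k = i ∧ a = h * b
      · obtain ⟨rfl, rfl⟩ := c3
        rw [if_pos ⟨rfl, rfl⟩] at hka
        refine ⟨k, b, γ, ?_⟩
        have e1 : (γ : ℤ) = -((ε : ℤ) * δ) := by
          rcases Int.units_eq_one_or ε with rfl | rfl <;>
          rcases Int.units_eq_one_or γ with rfl | rfl <;>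
            rcases Int.units_eq_one_or δ with rfl | rfl <;> simp at hka ⊢
        have e2 : -((ε : ℤ) * γ) = δ := by
          rw [e1, mul_neg, neg_neg, ← mul_assoc, unit_sq, one_mul]
        rw [hv2, e2, e1]
        abel
      · rw [if_neg c3, mul_zero] at hka
        exact absurd hka (lt_irrefl _)
  · rw [if_neg c1, zero_add] at hka
    by_cases c4 : k = j ∧ a = h * (h * s)
    · obtain ⟨rfl, rfl⟩ := c4
      rw [if_pos ⟨rfl, rfl⟩] at hka
      by_cases c2 : k = i ∧ h * (h * s) = b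
      · obtain ⟨rfl, rfl⟩ := c2
        rw [if_pos ⟨rfl, rfl⟩, if_neg (fun hh => hb hh.2), add_zero] at hka
        refine ⟨k, s, δ, ?_⟩
        have e1 : (γ : ℤ) = δ := by
          rcases Int.units_eq_one_or γ with rfl | rfl <;>
            rcases Int.units_eq_one_or δ with rfl | rfl <;> simp at hka ⊢
        rw [hv2, e1]
      · rw [if_neg c2, zero_add] at hka
        by_cases c3 : k = i ∧ h * (h * s) = h * b
        · obtain ⟨rfl, h5⟩ := c3
          rw [if_pos ⟨rfl, h5⟩] at hka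
          have h6 : b = h * s := (mul_left_cancel h5).symm
          exfalso
          have e1 : -((ε : ℤ) * δ) + γ = 0 := by
            rcases Int.units_eq_one_or ε with rfl | rfl <;>
            rcases Int.units_eq_one_or γ with rfl | rfl <;>
              rcases Int.units_eq_one_or δ with rfl | rfl <;> simp at hka ⊢
          have e2 : v = mo k s (δ : ℤ) := by
            rw [hv2, h6, add_assoc, mo_add, e1, mo_zero, add_zero]
          rw [e2, wt_mo_unit] at hv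
          exact absurd hv (by norm_num)
        · rw [if_neg c3, mul_zero] at hka
          exact absurd hka (lt_irrefl _)
    · rw [if_neg c4, zero_mul] at hka
      exact absurd hka (lt_irrefl _)

end Pool.Agent.Helper140_W
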