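import Pool.Agent.Helper140_W.Ch

set_option autoImplicit false
set_option linter.unusedSectionVars false

/-! The element `1 - ε h + h ^ 2` in torsion-free groups. -/

namespace Pool.Agent.Helper140_W

open Pool.Agent.Y35.KC.TTm TH57.Thr TH57.TT2

variable {Γ : Type} [Group Γ] {κ : Type} [Fintype κ] [DecidableEq κ]

theorem wt_double (w : κ → MonoidAlgebra ℤ Γ) : wt (w + w) = wt w + wt w := by
  apply le_antisymm (wt_add w w)
  by_contra hcon
  push Not at hcon
  obtain ⟨j, g, h⟩ := wt_can w w hcon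
  exact absurd h (not_lt.2 (mul_self_nonneg _))

theorem lm_one_neg (v : κ → MonoidAlgebra ℤ Γ) : lm 1 (-1) v = -v := by
  funext j
  unfold lm
  rw [Units.val_neg, Units.val_one, MonoidAlgebra.single_neg, ← MonoidAlgebra.one_def]
  simp

/-- extremal elements of finite sets -/
theorem exists_ext (h : Γ) (hinf : ∀ m : ℕ, 0 < m → h ^ m ≠ 1) (S : Finset Γ) (hS : S.Nonempty) :
    ∃ c ∈ S, ∀ m : ℕ, 0 < m → h ^ m * c ∉ S := by
  classical
  obtain ⟨c, hc, hmin⟩ := Finset.exists_min_image S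
    (fun c => (S.filter (fun c' => ∃ m : ℕ, 0 < m ∧ c' = h ^ m * c)).card) hS
  refine ⟨c, hc, fun m hm hmem => ?_⟩
  have h1 := hmin _ hmem
  have h2 : (S.filter (fun c' => ∃ k : ℕ, 0 < k ∧ c' = h ^ k * (h ^ m * c))).card
      < (S.filter (fun c' => ∃ k : ℕ, 0 < k ∧ c' = h ^ k * c)).card := by
    apply Finset.card_lt_card
    rw [Finset.ssubset_iff_of_subset]
    · refine ⟨h ^ m * c, ?_, ?_⟩
      · rw [Finset.mem_filter]
        exact ⟨hmem, m, hm, rfl⟩
      · rw [Finset.mem_filter]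
        rintro ⟨-, k, hk, he⟩
        apply hinf k hk
        have : 1 * (h ^ m * c) = h ^ k * (h ^ m * c) := by rw [one_mul]; exact he
        exact (mul_right_cancel this).symm
    · intro c' hc'
      rw [Finset.mem_filter] at hc' ⊢
      obtain ⟨h3, k, hk, rfl⟩ := hc'
      refine ⟨h3, k + m, by omega, ?_⟩
      rw [pow_add, mul_assoc]
  omega

theorem no_T (h : Γ) (hinf : ∀ m : ℕ, 0 < m → h ^ m ≠ 1) (ε : ℤˣ) (y : κ)
    (w : κ → MonoidAlgebra ℤ Γ)
    (he : w - lm h ε w + lm (h * h) 1 w = mo y 1 ((1 : ℤˣ) : ℤ)) : False := by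
  classical
  have hc : ∀ (j : κ) (a : Γ), (w j).coeff a - ε * (w j).coeff (h⁻¹ * a)
      + (w j).coeff ((h * h)⁻¹ * a) = if j = y ∧ a = 1 then ((1 : ℤˣ) : ℤ) else 0 := by
    intro j a
    have e1 := congrArg (fun v : κ → MonoidAlgebra ℤ Γ => (v j).coeff a) he
    beta_reduce at e1
    rw [Pi.add_apply, Pi.sub_apply, cf_add, cf_sub, lm_cf, lm_cf, mo_cf, Units.val_one,
      one_mul] at e1
    exact e1
  have hw : ∃ j, (w j).coeff.support.Nonempty := by
    by_contra hcon
    push Not at hcon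
    have h1 : ∀ j a, (w j).coeff a = 0 := by
      intro j a
      by_contra h0
      have := hcon j
      exact (Finset.eq_empty_iff_forall_notMem.1 this a) (Finsupp.mem_support_iff.2 h0)
    have h2 := hc y 1
    rw [h1, h1, h1, if_pos ⟨rfl, rfl⟩] at h2
    simp at h2
  obtain ⟨j, hj⟩ := hw
  have hns : ∀ a, a ∉ (w j).coeff.support → (w j).coeff a = 0 := fun a ha =>
    Finsupp.notMem_support_iff.1 ha
  obtain ⟨c, hc1, hc2⟩ := exists_ext h hinf _ hj
  obtain ⟨d, hd1, hd2⟩ := exists_ext h⁻¹ (fun m hm h0 => hinf m hm (by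
    rw [inv_pow] at h0; exact inv_eq_one.1 h0)) _ hj
  have f1 := hc j (h * (h * c))
  rw [show h⁻¹ * (h * (h * c)) = h ^ 1 * c by group, show (h * h)⁻¹ * (h * (h * c)) = c by group,
    show h * (h * c) = h ^ 2 * c by rw [sq, mul_assoc], hns _ (hc2 1 one_pos), hns _ (hc2 2 two_pos)] at f1
  have f2 := hc j d
  rw [show h⁻¹ * d = h⁻¹ ^ 1 * d by rw [pow_one], show (h * h)⁻¹ * d = h⁻¹ ^ 2 * d by group,
    hns _ (hd2 1 one_pos), hns _ (hd2 2 two_pos)] at f2
  have g1 : h ^ 2 * c = 1 := by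
    by_contra hne
    rw [if_neg (fun hh => hne hh.2), mul_zero, sub_zero, zero_add] at f1
    exact (Finsupp.mem_support_iff.1 hc1) f1
  have g2 : d = 1 := by
    by_contra hne
    rw [if_neg (fun hh => hne hh.2), mul_zero, sub_zero, add_zero] at f2
    exact (Finsupp.mem_support_iff.1 hd1) f2
  apply hc2 2 two_pos
  rw [g1, ← g2]
  exact hd1

end Pool.Agent.Helper140_W
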