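import Pool.Agent.Helper140_W.Hv

set_option autoImplicit false
set_option linter.unusedSectionVars false

/-! The form of the frozen statement for matrices over any finite index type. -/

namespace Pool.Agent.Helper140_W

open Matrix
open Pool.Agent.Y35.KC.TTm TH57.Thr TH57.TT2 Pool.Agent.Y75.Th

variable {Γ : Type} [Group Γ] {κ : Type} [Fintype κ] [DecidableEq κ]

theorem TT_fz (A : (Matrix κ κ (MonoidAlgebra ℤ Γ))ˣ) (h : TT (TU Γ) A) :
    ∃ (m : ℕ) (g : Γ) (ε : ℤˣ)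
      (C : (Matrix (κ ⊕ Fin (m + 1)) (κ ⊕ Fin (m + 1)) (MonoidAlgebra ℤ Γ))ˣ),
      C ∈ commutator (Matrix (κ ⊕ Fin (m + 1)) (κ ⊕ Fin (m + 1)) (MonoidAlgebra ℤ Γ))ˣ ∧
      Matrix.fromBlocks A.val 0 0 1 =
        Matrix.diagonal (fun i : κ ⊕ Fin (m + 1) =>
            if i = Sum.inr (0 : Fin (m + 1)) then
              (MonoidAlgebra.single g ((ε : ℤ)) : MonoidAlgebra ℤ Γ) else 1) * C.val := by
  obtain ⟨μ, i1, i2, h1⟩ := h
  have h2 := (TT_more (TU Γ) A μ h1 (Fin 1)).1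
  have hcard : Fintype.card (Fin (Fintype.card μ + 1)) = Fintype.card (μ ⊕ Fin 1) := by simp
  let e : Fin (Fintype.card μ + 1) ≃ (μ ⊕ Fin 1) := Fintype.equivOfCardEq hcard
  have h3 := re_mem (TU Γ) (Equiv.sumCongr (Equiv.refl κ) e) _ h2
  obtain ⟨u, ⟨g, ε, hu⟩, C, hC, h4⟩ := HH_form (TU Γ)
    (Sum.inr (0 : Fin (Fintype.card μ + 1))) _ h3
  refine ⟨Fintype.card μ, g, ε, C, hC, ?_⟩
  have h5 := congrArg Units.val h4
  rw [Units.val_mul] at h5
  convert h5 using 1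
  · ext (i | i) (j | j) <;> simp [stm, re, Matrix.one_apply]
  · congr 1
    change _ = dgm (Sum.inr (0 : Fin (Fintype.card μ + 1))) (u : MonoidAlgebra ℤ Γ)
    rw [dgm_apply, hu]
    congr 1
    funext i
    by_cases h : i = Sum.inr (0 : Fin (Fintype.card μ + 1))
    · subst h; simp
    · rw [if_neg h, Function.update_of_ne h]; rfl

/-- a block of size zero -/
theorem TT_of_blk_empty {k : ℕ} (hk : k = 0) (A : (Matrix κ κ (MonoidAlgebra ℤ Γ))ˣ)
    (A' : (Matrix (Fin k) (Fin k) (MonoidAlgebra ℤ Γ))ˣ) (h : TT (TU Γ) (blk A A')) :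
    TT (TU Γ) A := by
  subst hk
  have h1 : A' = 1 := by
    apply Units.ext
    ext1 i
    exact i.elim0
  rw [h1, blk_one] at h
  exact TT_unst _ _ h

end Pool.Agent.Helper140_W
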