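import Pool.Agent.Helper140_W.Ex
import Pool.Agent.Helper140_W.Bk

set_option autoImplicit false
set_option linter.unusedSectionVars false

/-! The main theorem. -/

namespace Pool.Agent.Helper140_W

open Matrix
open Pool.Agent.Y35.KC.TTm TH57.Thr TH57.TT2 Pool.Agent.Y75.Th

variable {Γ : Type} [Group Γ] {κ : Type} [Fintype κ] [DecidableEq κ]

theorem wt_three (v : κ → MonoidAlgebra ℤ Γ) (h : wt v = 3) :
    ∃ (y₁ y₂ y₃ : κ) (g₁ g₂ g₃ : Γ) (ε₁ ε₂ ε₃ : ℤˣ),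
      v = mo y₁ g₁ (ε₁ : ℤ) + mo y₂ g₂ (ε₂ : ℤ) + mo y₃ g₃ (ε₃ : ℤ) := by
  have h0 : v ≠ 0 := by rintro rfl; rw [wt_zero] at h; omega
  obtain ⟨y₁, g₁, ε₁, h1⟩ := row_dec v h0
  have h1' : wt (v - mo y₁ g₁ (ε₁ : ℤ)) + 1 = wt v := h1
  have h2 : v - mo y₁ g₁ (ε₁ : ℤ) ≠ 0 := by intro h2; rw [h2, wt_zero] at h1'; omega
  obtain ⟨y₂, g₂, ε₂, h3⟩ := row_dec _ h2
  have h3' : wt (v - mo y₁ g₁ (ε₁ : ℤ) - mo y₂ g₂ (ε₂ : ℤ)) + 1
    = wt (v - mo y₁ g₁ (ε₁ : ℤ)) := h3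
  obtain ⟨y₃, g₃, ε₃, h4⟩ := wt_one (v - mo y₁ g₁ (ε₁ : ℤ) - mo y₂ g₂ (ε₂ : ℤ)) (by omega)
  refine ⟨y₁, y₂, y₃, g₁, g₂, g₃, ε₁, ε₂, ε₃, ?_⟩
  rw [← h4]; abel

theorem mo_vm (j : κ) (g : Γ) (n : ℤ) (M : Matrix κ κ (MonoidAlgebra ℤ Γ)) :
    (mo j g n : κ → MonoidAlgebra ℤ Γ) ᵥ* M = fun l => MonoidAlgebra.single g n * M j l := by
  unfold mo
  rw [Matrix.single_vecMul]
  rfl

theorem one_row (x : κ) : (1 : Matrix κ κ (MonoidAlgebra ℤ Γ)) x = mo x 1 ((1 : ℤˣ) : ℤ) := by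
  unfold mo
  rw [Units.val_one, ← MonoidAlgebra.one_def]
  funext l
  rw [Matrix.one_apply, Pi.single_apply]
  simp only [eq_comm]

section step

variable (htf : ∀ g : Γ, ∀ k : ℕ, 0 < k → g ^ k = 1 → g = 1)
  (A B : Matrix κ κ (MonoidAlgebra ℤ Γ)) (hAB : A * B = 1) (hBA : B * A = 1)
  (hA : ∀ i, wt (A i) = 3)

include htf hAB hA in
theorem step_same (x : κ) (h : Γ) (ε : ℤˣ) (hw : wt (A x + lm h ε (A x)) ≤ 2)
    (hw0 : wt (A x + lm h ε (A x)) ≠ 0) : False := by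
  by_cases h1 : h = 1
  · subst h1
    rcases Int.units_eq_one_or ε with rfl | rfl
    · rw [lm_one, wt_double, hA] at hw; omega
    · rw [lm_one_neg, add_neg_cancel, wt_zero] at hw0; omega
  have hh : h * h ≠ 1 := fun h0 => h1 (htf _ 2 two_pos (by rw [sq]; exact h0))
  obtain ⟨j, g, δ, hd⟩ := chain h h1 hh ε (A x) (hA x) hw
  have e1 : A x ᵥ* B = mo x 1 ((1 : ℤˣ) : ℤ) := by
    rw [← one_row, ← hAB]; rfl
  rw [hd, Matrix.add_vecMul, Matrix.add_vecMul, mo_vm, mo_vm, mo_vm] at e1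
  apply no_T h (fun m hm h0 => h1 (htf h m hm h0)) ε x (lm g δ (B j))
  rw [← e1]
  have f1 : (MonoidAlgebra.single (h * g) (-((ε : ℤ) * δ)) : MonoidAlgebra ℤ Γ)
      = -(MonoidAlgebra.single h (ε : ℤ) * MonoidAlgebra.single g (δ : ℤ)) := by
    rw [MonoidAlgebra.single_mul_single, MonoidAlgebra.single_neg]
  have f2 : (MonoidAlgebra.single (h * (h * g)) (δ : ℤ) : MonoidAlgebra ℤ Γ)
      = MonoidAlgebra.single (h * h) ((1 : ℤˣ) : ℤ) * MonoidAlgebra.single g (δ : ℤ) := by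
    rw [MonoidAlgebra.single_mul_single, mul_assoc, Units.val_one, one_mul]
  funext l
  simp only [Pi.add_apply, Pi.sub_apply]
  rw [f1, f2, neg_mul, mul_assoc, mul_assoc]
  change MonoidAlgebra.single g (δ : ℤ) * B j l
    - MonoidAlgebra.single h (ε : ℤ) * (MonoidAlgebra.single g (δ : ℤ) * B j l)
    + MonoidAlgebra.single (h * h) ((1 : ℤˣ) : ℤ) * (MonoidAlgebra.single g (δ : ℤ) * B j l) = _
  rw [sub_eq_add_neg]

include htf hAB hBA hA in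
theorem step (hne : ∀ x x' : κ, x ≠ x' → ∀ (g : Γ) (ε : ℤˣ), 2 < wt (A x + lm g ε (A x')))
    (y x₁ x₂ x₃ : κ) (g₁ g₂ g₃ : Γ) (ε₁ ε₂ ε₃ : ℤˣ)
    (hy : B y = mo x₁ g₁ (ε₁ : ℤ) + mo x₂ g₂ (ε₂ : ℤ) + mo x₃ g₃ (ε₃ : ℤ))
    (hpos : 0 < (lm g₁ ε₁ (A x₁) y).coeff 1) : False := by
  have e1 : B y ᵥ* A = mo y 1 ((1 : ℤˣ) : ℤ) := by
    rw [← one_row, ← hBA]; rfl
  rw [hy, Matrix.add_vecMul, Matrix.add_vecMul, mo_vm, mo_vm, mo_vm] at e1
  change lm g₁ ε₁ (A x₁) + lm g₂ ε₂ (A x₂) + lm g₃ ε₃ (A x₃) = _ at e1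
  have e2 := wt_ext (lm g₁ ε₁ (A x₁)) y 1 1 (by rw [Units.val_one, mul_one]; exact hpos)
  rw [wt_lm, hA] at e2
  have e3 : lm g₂ ε₂ (A x₂) + lm g₃ ε₃ (A x₃) = -(lm g₁ ε₁ (A x₁) - mo y 1 ((1 : ℤˣ) : ℤ)) := by
    rw [← e1]; abel
  have e4 : wt (lm g₂ ε₂ (A x₂) + lm g₃ ε₃ (A x₃)) = 2 := by
    rw [e3, wt_neg]; omega
  have e5 : lm g₂ ε₂ (A x₂) + lm g₃ ε₃ (A x₃)
      = lm g₂ ε₂ (A x₂ + lm (g₂⁻¹ * g₃) (ε₂ * ε₃) (A x₃)) := by
    rw [lm_add, lm_lm, ← mul_assoc ε₂, Int.units_mul_self, one_mul, mul_inv_cancel_left]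
  rw [e5, wt_lm] at e4
  by_cases hx : x₂ = x₃
  · subst hx
    exact step_same htf A B hAB hA x₂ (g₂⁻¹ * g₃) (ε₂ * ε₃) (by omega) (by omega)
  · have := hne x₂ x₃ hx (g₂⁻¹ * g₃) (ε₂ * ε₃)
    omega

include htf hAB hBA hA in
theorem not_three (hne : ∀ x x' : κ, x ≠ x' → ∀ (g : Γ) (ε : ℤˣ), 2 < wt (A x + lm g ε (A x')))
    (y : κ) : wt (B y) ≠ 3 := by
  classical
  intro h3
  obtain ⟨x₁, x₂, x₃, g₁, g₂, g₃, ε₁, ε₂, ε₃, hy⟩ := wt_three (B y) h3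
  have e1 : B y ᵥ* A = mo y 1 ((1 : ℤˣ) : ℤ) := by
    rw [← one_row, ← hBA]; rfl
  rw [hy, Matrix.add_vecMul, Matrix.add_vecMul, mo_vm, mo_vm, mo_vm] at e1
  change lm g₁ ε₁ (A x₁) + lm g₂ ε₂ (A x₂) + lm g₃ ε₃ (A x₃) = _ at e1
  have e2 := congrArg (fun v : κ → MonoidAlgebra ℤ Γ => (v y).coeff 1) e1
  beta_reduce at e2
  rw [Pi.add_apply, Pi.add_apply, cf_add, cf_add, mo_cf, if_pos ⟨rfl, rfl⟩, Units.val_one] at e2
  by_cases c1 : 0 < (lm g₁ ε₁ (A x₁) y).coeff 1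
  · exact step htf A B hAB hBA hA hne y _ _ _ _ _ _ _ _ _ hy c1
  by_cases c2 : 0 < (lm g₂ ε₂ (A x₂) y).coeff 1
  · exact step htf A B hAB hBA hA hne y x₂ x₁ x₃ g₂ g₁ g₃ ε₂ ε₁ ε₃ (by rw [hy]; abel) c2
  by_cases c3 : 0 < (lm g₃ ε₃ (A x₃) y).coeff 1
  · exact step htf A B hAB hBA hA hne y x₃ x₁ x₂ g₃ g₁ g₂ ε₃ ε₁ ε₂ (by rw [hy]; abel) c3
  omega

end step

theorem wt_aug2 (v : κ → MonoidAlgebra ℤ Γ) : ((wt v : ℕ) : ZMod 2) = ∑ j, aug2 (v j) := by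
  unfold wt
  rw [Nat.cast_sum]
  exact Finset.sum_congr rfl fun j _ => l1_aug2 _

theorem odd_rows (A B : Matrix κ κ (MonoidAlgebra ℤ Γ)) (hBA : B * A = 1)
    (hA : ∀ i, wt (A i) = 3) (y : κ) : ((wt (B y) : ℕ) : ZMod 2) = 1 := by
  have e1 : ∀ j, ∑ k, aug2 (A j k) = 1 := by
    intro j
    rw [← wt_aug2, hA]
    decide
  rw [wt_aug2]
  calc ∑ j, aug2 (B y j) = ∑ j, aug2 (B y j) * ∑ k, aug2 (A j k) := by
        refine Finset.sum_congr rfl fun j _ => ?_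
        rw [e1, mul_one]
    _ = ∑ k, ∑ j, aug2 (B y j * A j k) := by
        simp only [Finset.mul_sum, map_mul]
        exact Finset.sum_comm
    _ = ∑ k, aug2 ((B * A) y k) := by
        refine Finset.sum_congr rfl fun k _ => ?_
        rw [Matrix.mul_apply, map_sum]
    _ = 1 := by
        rw [hBA, Finset.sum_eq_single y]
        · rw [Matrix.one_apply_eq, map_one]
        · intro b _ hb
          rw [Matrix.one_apply_ne (Ne.symm hb), map_zero]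
        · intro h; exact absurd (Finset.mem_univ y) h

/-- the number of rows of norm at least five -/
noncomputable def hv (M : Matrix κ κ (MonoidAlgebra ℤ Γ)) : ℕ := Fintype.card {i // 5 ≤ wt (M i)}

theorem hv_mono {κ' : Type} [Fintype κ'] [DecidableEq κ'] (M : Matrix κ κ (MonoidAlgebra ℤ Γ))
    (M' : Matrix κ' κ' (MonoidAlgebra ℤ Γ)) (τ : κ' → κ) (hτ : Function.Injective τ)
    (h : ∀ i, wt (M' i) ≤ wt (M (τ i))) : hv M' ≤ hv M := by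
  unfold hv
  exact Fintype.card_le_of_injective
    (fun i : {i // 5 ≤ wt (M' i)} => (⟨τ i.1, le_trans i.2 (h i.1)⟩ : {i // 5 ≤ wt (M i)}))
    (fun i j hij => Subtype.ext (hτ (congrArg Subtype.val hij)))

/-- the conclusion -/
def Cn (b : ℕ) (A : (Matrix κ κ (MonoidAlgebra ℤ Γ))ˣ) : Prop :=
  ∃ (k : ℕ) (A' : (Matrix (Fin k) (Fin k) (MonoidAlgebra ℤ Γ))ˣ), k ≤ b ∧
    (∀ i, wt (A'.val i) = 3) ∧ (∀ i, 5 ≤ wt ((A'⁻¹).val i)) ∧ TT (TU Γ) (blk A A'⁻¹)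

theorem main (htf : ∀ g : Γ, ∀ k : ℕ, 0 < k → g ^ k = 1 → g = 1) :
    ∀ (N : ℕ) (κ : Type) [Fintype κ] [DecidableEq κ], Fintype.card κ = N →
      ∀ A : (Matrix κ κ (MonoidAlgebra ℤ Γ))ˣ, (∀ i, wt (A.val i) ≤ 3) →
        Cn (hv (A⁻¹).val) A := by
  intro N
  induction N with
  | zero =>
    intro κ _ _ hκ A _
    have := Fintype.card_eq_zero_iff.1 hκ
    have e : Fin 0 ≃ κ := Fintype.equivOfCardEq (by rw [hκ, Fintype.card_fin])
    exact ⟨0, reU e A, Nat.zero_le _, fun i => i.elim0, fun i => i.elim0, TT_blk_re e A⟩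
  | succ N IH =>
    intro κ _ _ hκ A h3
    have hcard : ∀ y : κ, Fintype.card {l : κ // l ≠ y} = N := by
      intro y
      rw [Fintype.card_subtype_compl, Fintype.card_subtype_eq, hκ]
      omega
    have key1 : ∀ (y : κ) (E : (Matrix κ κ (MonoidAlgebra ℤ Γ))ˣ), TT (TU Γ) E →
        (∀ k, k ≠ y → (E.val * A.val) k = A.val k) →
        (∀ s : κ → MonoidAlgebra ℤ Γ,
          ∑ l ∈ Finset.univ.erase y, l1 ((s ᵥ* (E⁻¹).val) l) ≤ wt s) →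
        wt ((E.val * A.val) y) ≤ 2 → Cn (hv (A⁻¹).val) A := by
      intro y E hE hE1 hE2 hw
      obtain ⟨B', τ, hτ, hb1, hb2, hb3⟩ := red A y E hE hE1 hE2 hw
      obtain ⟨k, A', hk, ha1, ha2, ha3⟩ := IH _ (hcard y) B'
        (fun i => le_trans (hb2 i) (h3 i))
      exact ⟨k, A', le_trans hk (hv_mono _ _ τ hτ hb1), ha1, ha2, hb3 _ _ ha3⟩
    have hE2' : ∀ (y : κ) (s : κ → MonoidAlgebra ℤ Γ), ∑ l ∈ Finset.univ.erase y,
        l1 ((s ᵥ* ((1 : (Matrix κ κ (MonoidAlgebra ℤ Γ))ˣ)⁻¹).val) l) ≤ wt s := by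
      intro y s
      rw [inv_one, Units.val_one, Matrix.vecMul_one]
      exact Finset.sum_le_sum_of_subset (Finset.erase_subset _ _)
    by_cases nA : ∃ y, wt (A.val y) ≤ 2
    · obtain ⟨y, hy⟩ := nA
      exact key1 y 1 (TT_one _) (fun k _ => by rw [Units.val_one, one_mul]) (hE2' y)
        (by rw [Units.val_one, one_mul]; exact hy)
    by_cases nB : ∃ y, wt ((A⁻¹).val y) ≤ 2
    · obtain ⟨y, hy⟩ := nB
      obtain ⟨B', τ, hτ, hb1, hb2, hb3⟩ := red A⁻¹ y 1 (TT_one _)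
        (fun k _ => by rw [Units.val_one, one_mul]) (hE2' y)
        (by rw [Units.val_one, one_mul]; exact hy)
      obtain ⟨k, A', hk, ha1, ha2, ha3⟩ := IH _ (hcard y) B'⁻¹
        (fun i => le_trans (hb1 i) (by rw [inv_inv]; exact h3 _))
      refine ⟨k, A', le_trans hk ?_, ha1, ha2, ?_⟩
      · rw [inv_inv]
        exact hv_mono _ _ _ Subtype.val_injective hb2
      · have h4 := TT_blk_inv _ _ ha3
        rw [inv_inv] at h4
        have h5 := TT_blk_inv _ _ (hb3 _ _ h4)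
        rwa [inv_inv] at h5
    by_cases nC : ∃ (y y' : κ) (g : Γ) (ε : ℤˣ), y ≠ y' ∧ wt (A.val y + lm g ε (A.val y')) ≤ 2
    · obtain ⟨y, y', g, ε, hy, hle⟩ := nC
      have hz : UZ (TU Γ) (MonoidAlgebra.single g (ε : ℤ) : MonoidAlgebra ℤ Γ) := uz_tu g ε
      refine key1 y (tv y y' hy (MonoidAlgebra.single g (ε : ℤ))) (TT_tv _ _ _ _ _)
        (fun k hk => tv_mul_row _ _ _ _ _ _ hk) (fun s => ?_) ?_
      · rw [tv_inv]
        exact wt_tv _ _ _ _ (UZ.neg neg_mem hz) s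
      · rw [tv_mul_same]
        exact hle
    push Not at nA nB nC
    have hA3 : ∀ y, wt (A.val y) = 3 := fun y => by
      have := nA y
      have := h3 y
      omega
    have hB5 : ∀ y, 5 ≤ wt ((A⁻¹).val y) := by
      intro y
      have a1 := nB y
      have a2 := not_three htf A.val (A⁻¹).val (Units.mul_inv A) (Units.inv_mul A) hA3
        (fun x x' hx g ε => nC x x' g ε hx) y
      have a3 := odd_rows A.val (A⁻¹).val (Units.inv_mul A) hA3 y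
      have a4 : wt ((A⁻¹).val y) ≠ 4 := by
        intro h0
        rw [h0] at a3
        exact absurd a3 (by decide)
      omega
    let e : Fin (Fintype.card κ) ≃ κ := (Fintype.equivFin κ).symm
    have hre1 : ∀ i, wt ((reU e A).val i) = wt (A.val (e i)) := by
      intro i
      exact Equiv.sum_comp e (fun l => l1 (A.val (e i) l))
    have hre2 : ∀ i, wt (((reU e A)⁻¹).val i) = wt ((A⁻¹).val (e i)) := by
      intro i
      exact Equiv.sum_comp e (fun l => l1 ((A⁻¹).val (e i) l))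
    refine ⟨Fintype.card κ, reU e A, ?_, ?_, ?_, TT_blk_re e A⟩
    · exact Fintype.card_le_of_injective (fun i => (⟨i, hB5 i⟩ : {i // 5 ≤ wt ((A⁻¹).val i)}))
        (fun i j hij => congrArg Subtype.val hij)
    · intro i
      exact (hre1 i).trans (hA3 _)
    · intro i
      rw [hre2]
      exact hB5 _

end Pool.Agent.Helper140_W
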