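import Pool.Agent.Y35.KC.TwoTerm
import Pool.Agent.Y75.Th.Fin

set_option autoImplicit false
set_option linter.unusedSectionVars false

/-! The `ℓ¹` norm on vectors over integral group rings. -/

namespace Pool.Agent.Helper140_W

open Pool.Agent.Y35.KC.TTm TH57.Thr TH57.TT2

variable {Γ : Type} [Group Γ]

/-- The homomorphism property of coefficients. -/
theorem cf_add (x y : MonoidAlgebra ℤ Γ) (g : Γ) : (x + y).coeff g = x.coeff g + y.coeff g := rfl

theorem cf_sub (x y : MonoidAlgebra ℤ Γ) (g : Γ) : (x - y).coeff g = x.coeff g - y.coeff g := rfl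

theorem l1_add (x y : MonoidAlgebra ℤ Γ) : l1 (x + y) ≤ l1 x + l1 y := by
  classical
  have hs : (x + y).coeff.support ⊆ x.coeff.support ∪ y.coeff.support := Finsupp.support_add
  rw [l1_eq _ _ hs, l1_eq x _ Finset.subset_union_left, l1_eq y _ Finset.subset_union_right,
    ← Finset.sum_add_distrib]
  exact Finset.sum_le_sum fun g _ => by rw [cf_add]; exact Int.natAbs_add_le _ _

theorem l1_add_eq (x y : MonoidAlgebra ℤ Γ) (h : ∀ g, 0 ≤ x.coeff g * y.coeff g) :
    l1 (x + y) = l1 x + l1 y := by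
  classical
  have hs : (x + y).coeff.support ⊆ x.coeff.support ∪ y.coeff.support := Finsupp.support_add
  rw [l1_eq _ _ hs, l1_eq x _ Finset.subset_union_left, l1_eq y _ Finset.subset_union_right,
    ← Finset.sum_add_distrib]
  refine Finset.sum_congr rfl fun g _ => ?_
  rw [cf_add]
  have := h g
  rcases mul_nonneg_iff.1 this with h1 | h1 <;> omega

theorem l1_neg (x : MonoidAlgebra ℤ Γ) : l1 (-x) = l1 x := by
  have hs : (-x).coeff.support ⊆ x.coeff.support := by
    intro g hg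
    rw [Finsupp.mem_support_iff] at hg ⊢
    intro h
    apply hg
    change -(x.coeff g) = 0
    rw [h, neg_zero]
  rw [l1_eq _ _ hs, l1]
  refine Finset.sum_congr rfl fun g _ => ?_
  change (-(x.coeff g)).natAbs = _
  exact Int.natAbs_neg _

theorem l1_zero : l1 (0 : MonoidAlgebra ℤ Γ) = 0 := (l1_zero_iff _).2 rfl

theorem l1_single (g : Γ) (n : ℤ) : l1 (MonoidAlgebra.single g n : MonoidAlgebra ℤ Γ) = n.natAbs := by
  classical
  have hs : (MonoidAlgebra.single g n : MonoidAlgebra ℤ Γ).coeff.support ⊆ {g} :=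
    Finsupp.support_single_subset
  rw [l1_eq _ _ hs, Finset.sum_singleton, MonoidAlgebra.coeff_single, Finsupp.single_eq_same]

theorem l1_sl_le (g : Γ) (ε : ℤˣ) (x : MonoidAlgebra ℤ Γ) :
    l1 (MonoidAlgebra.single g (ε : ℤ) * x) ≤ l1 x := by
  classical
  have hs : (MonoidAlgebra.single g (ε : ℤ) * x).coeff.support
      ⊆ x.coeff.support.image (fun a => g * a) := by
    intro a ha
    rw [Finsupp.mem_support_iff, MonoidAlgebra.coeff_single_mul_apply] at ha
    rw [Finset.mem_image]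
    refine ⟨g⁻¹ * a, ?_, by group⟩
    rw [Finsupp.mem_support_iff]
    intro h
    exact ha (by rw [h, mul_zero])
  rw [l1_eq _ _ hs, l1, Finset.sum_image (fun a _ b _ h => mul_left_cancel h)]
  apply le_of_eq
  refine Finset.sum_congr rfl fun a _ => ?_
  rw [MonoidAlgebra.coeff_single_mul_apply, Int.natAbs_mul, Int.units_natAbs, one_mul,
    inv_mul_cancel_left]

theorem l1_sr_le (g : Γ) (ε : ℤˣ) (x : MonoidAlgebra ℤ Γ) :
    l1 (x * MonoidAlgebra.single g (ε : ℤ)) ≤ l1 x := by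
  classical
  have hs : (x * MonoidAlgebra.single g (ε : ℤ)).coeff.support
      ⊆ x.coeff.support.image (fun a => a * g) := by
    intro a ha
    rw [Finsupp.mem_support_iff, MonoidAlgebra.coeff_mul_single_apply] at ha
    rw [Finset.mem_image]
    refine ⟨a * g⁻¹, ?_, by group⟩
    rw [Finsupp.mem_support_iff]
    intro h
    exact ha (by rw [h, zero_mul])
  rw [l1_eq _ _ hs, l1, Finset.sum_image (fun a _ b _ h => mul_right_cancel h)]
  apply le_of_eq
  refine Finset.sum_congr rfl fun a _ => ?_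
  rw [MonoidAlgebra.coeff_mul_single_apply, Int.natAbs_mul, Int.units_natAbs, mul_one,
    mul_inv_cancel_right]

theorem l1_sl (g : Γ) (ε : ℤˣ) (x : MonoidAlgebra ℤ Γ) :
    l1 (MonoidAlgebra.single g (ε : ℤ) * x) = l1 x := by
  apply le_antisymm (l1_sl_le g ε x)
  have h := l1_sl_le g⁻¹ ε (MonoidAlgebra.single g (ε : ℤ) * x)
  rwa [← mul_assoc, MonoidAlgebra.single_mul_single, inv_mul_cancel,
    show (ε : ℤ) * (ε : ℤ) = 1 from Int.units_coe_mul_self ε, ← MonoidAlgebra.one_def, one_mul] at h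

theorem l1_ur_le (c x : MonoidAlgebra ℤ Γ) (hc : UZ (TU Γ) c) : l1 (x * c) ≤ l1 x := by
  rcases hc with rfl | ⟨u, ⟨g, ε, hu⟩, rfl⟩
  · rw [mul_zero, l1_zero]; exact Nat.zero_le _
  · rw [hu]; exact l1_sr_le g ε x

theorem natAbs_zmod2 (n : ℤ) : ((n.natAbs : ℕ) : ZMod 2) = (n : ZMod 2) := by
  rcases Int.natAbs_eq n with h | h
  · conv_rhs => rw [h]
    simp
  · conv_rhs => rw [h]
    rw [Int.cast_neg, Int.cast_natCast]
    generalize ((n.natAbs : ℕ) : ZMod 2) = z
    revert z; decide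

theorem aug2_single (g : Γ) (n : ℤ) : aug2 (MonoidAlgebra.single g n : MonoidAlgebra ℤ Γ) = n := by
  change MonoidAlgebra.lift ℤ (ZMod 2) Γ _ (MonoidAlgebra.single g n) = _
  rw [MonoidAlgebra.lift_single]
  simp

theorem aug2_eq (x : MonoidAlgebra ℤ Γ) : aug2 x = ∑ g ∈ x.coeff.support, ((x.coeff g : ℤ) : ZMod 2) := by
  change MonoidAlgebra.lift ℤ (ZMod 2) Γ _ x = _
  rw [MonoidAlgebra.lift_apply, Finsupp.sum]
  refine Finset.sum_congr rfl fun g _ => ?_
  simp

theorem l1_aug2 (x : MonoidAlgebra ℤ Γ) : ((l1 x : ℕ) : ZMod 2) = aug2 x := by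
  rw [aug2_eq, l1, Nat.cast_sum]
  exact Finset.sum_congr rfl fun g _ => natAbs_zmod2 _

/-! Vectors. -/

variable {κ : Type} [Fintype κ] [DecidableEq κ]

/-- the `ℓ¹` norm -/
def wt (v : κ → MonoidAlgebra ℤ Γ) : ℕ := ∑ j, l1 (v j)

theorem wt_add (u v : κ → MonoidAlgebra ℤ Γ) : wt (u + v) ≤ wt u + wt v := by
  unfold wt
  rw [← Finset.sum_add_distrib]
  exact Finset.sum_le_sum fun j _ => l1_add _ _

theorem wt_neg (u : κ → MonoidAlgebra ℤ Γ) : wt (-u) = wt u :=
  Finset.sum_congr rfl fun j _ => l1_neg _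

theorem wt_zero : wt (0 : κ → MonoidAlgebra ℤ Γ) = 0 :=
  Finset.sum_eq_zero fun _ _ => l1_zero

theorem wt_eq_zero (v : κ → MonoidAlgebra ℤ Γ) (h : wt v = 0) : v = 0 := eq_zero_of_sum v h

/-- signed unit vectors -/
noncomputable def mo (j : κ) (g : Γ) (n : ℤ) : κ → MonoidAlgebra ℤ Γ :=
  Pi.single j (MonoidAlgebra.single g n)

open Classical in
theorem mo_cf (j : κ) (g : Γ) (n : ℤ) (i : κ) (a : Γ) :
    (mo j g n i).coeff a = if i = j ∧ a = g then n else 0 := by
  unfold mo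
  by_cases h : i = j
  · subst h
    rw [Pi.single_eq_same, MonoidAlgebra.coeff_single, Finsupp.single_apply]
    by_cases h2 : a = g
    · subst h2; simp
    · simp [h2, Ne.symm h2]
  · rw [Pi.single_eq_of_ne h]
    simp [h]

theorem wt_mo (j : κ) (g : Γ) (n : ℤ) : wt (mo j g n : κ → MonoidAlgebra ℤ Γ) = n.natAbs := by
  unfold wt mo
  rw [Finset.sum_eq_single j]
  · rw [Pi.single_eq_same, l1_single]
  · intro b _ hb
    rw [Pi.single_eq_of_ne hb, l1_zero]
  · intro h; exact absurd (Finset.mem_univ j) h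

/-- left multiplication with `ε g` -/
noncomputable def lm (g : Γ) (ε : ℤˣ) (v : κ → MonoidAlgebra ℤ Γ) : κ → MonoidAlgebra ℤ Γ :=
  fun j => MonoidAlgebra.single g (ε : ℤ) * v j

theorem wt_lm (g : Γ) (ε : ℤˣ) (v : κ → MonoidAlgebra ℤ Γ) : wt (lm g ε v) = wt v :=
  Finset.sum_congr rfl fun j _ => l1_sl g ε _

theorem lm_add (g : Γ) (ε : ℤˣ) (u v : κ → MonoidAlgebra ℤ Γ) :
    lm g ε (u + v) = lm g ε u + lm g ε v := by
  funext j; exact mul_add _ _ _

theorem lm_sub (g : Γ) (ε : ℤˣ) (u v : κ → MonoidAlgebra ℤ Γ) :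
    lm g ε (u - v) = lm g ε u - lm g ε v := by
  funext j; exact mul_sub _ _ _

theorem lm_neg (g : Γ) (ε : ℤˣ) (u : κ → MonoidAlgebra ℤ Γ) :
    lm g ε (-u) = -lm g ε u := by
  funext j; exact mul_neg _ _

theorem lm_lm (g h : Γ) (ε δ : ℤˣ) (v : κ → MonoidAlgebra ℤ Γ) :
    lm g ε (lm h δ v) = lm (g * h) (ε * δ) v := by
  funext j
  unfold lm
  rw [← mul_assoc, MonoidAlgebra.single_mul_single, Units.val_mul]

theorem lm_one (v : κ → MonoidAlgebra ℤ Γ) : lm 1 1 v = v := by
  funext j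
  unfold lm
  rw [Units.val_one, ← MonoidAlgebra.one_def, one_mul]

theorem lm_mo (g : Γ) (ε : ℤˣ) (j : κ) (h : Γ) (n : ℤ) :
    lm g ε (mo j h n : κ → MonoidAlgebra ℤ Γ) = mo j (g * h) (ε * n) := by
  funext i
  unfold lm mo
  by_cases hi : i = j
  · subst hi
    rw [Pi.single_eq_same, Pi.single_eq_same, MonoidAlgebra.single_mul_single]
  · rw [Pi.single_eq_of_ne hi, Pi.single_eq_of_ne hi, mul_zero]

theorem lm_cf (g : Γ) (ε : ℤˣ) (v : κ → MonoidAlgebra ℤ Γ) (i : κ) (a : Γ) :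
    (lm g ε v i).coeff a = ε * (v i).coeff (g⁻¹ * a) := by
  unfold lm
  rw [MonoidAlgebra.coeff_single_mul_apply]

/-- extraction of one unit of a coefficient -/
theorem wt_ext (v : κ → MonoidAlgebra ℤ Γ) (j : κ) (g : Γ) (ε : ℤˣ) (h : 0 < (v j).coeff g * ε) :
    wt (v - mo j g ε) + 1 = wt v := by
  classical
  have e1 : wt v = l1 (v j) + ∑ i ∈ Finset.univ.erase j, l1 (v i) :=
    (Finset.add_sum_erase _ (fun i => l1 (v i)) (Finset.mem_univ j)).symm
  have e2 : wt (v - mo j g ε) = l1 ((v - mo j g ε) j)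
      + ∑ i ∈ Finset.univ.erase j, l1 ((v - mo j g ε) i) :=
    (Finset.add_sum_erase _ (fun i => l1 ((v - mo j g ε) i)) (Finset.mem_univ j)).symm
  have e3 : ∑ i ∈ Finset.univ.erase j, l1 ((v - mo j g ε) i)
      = ∑ i ∈ Finset.univ.erase j, l1 (v i) := by
    refine Finset.sum_congr rfl fun i hi => ?_
    rw [Pi.sub_apply, mo, Pi.single_eq_of_ne (Finset.ne_of_mem_erase hi), sub_zero]
  have e4 : (v - mo j g ε) j = v j - MonoidAlgebra.single g (ε : ℤ) := by
    rw [Pi.sub_apply, mo, Pi.single_eq_same]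
  have hsupp : g ∈ (v j).coeff.support := by
    rw [Finsupp.mem_support_iff]
    intro h0
    rw [h0, zero_mul] at h
    exact lt_irrefl _ h
  have hsub : (v j - MonoidAlgebra.single g (ε : ℤ)).coeff.support ⊆ (v j).coeff.support := by
    intro a ha
    rw [Finsupp.mem_support_iff] at ha ⊢
    by_cases hg : a = g
    · rw [hg]; exact Finsupp.mem_support_iff.1 hsupp
    · intro h0
      apply ha
      rw [cf_sub, h0, MonoidAlgebra.coeff_single, Finsupp.single_eq_of_ne hg, sub_zero]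
  have e5 : l1 (v j - MonoidAlgebra.single g (ε : ℤ)) + 1 = l1 (v j) := by
    rw [l1_eq _ _ hsub, l1, ← Finset.add_sum_erase _ _ hsupp,
      ← Finset.add_sum_erase (v j).coeff.support _ hsupp]
    have h1 : ∑ y ∈ (v j).coeff.support.erase g,
        ((v j - MonoidAlgebra.single g (ε : ℤ)).coeff y).natAbs
        = ∑ y ∈ (v j).coeff.support.erase g, ((v j).coeff y).natAbs := by
      refine Finset.sum_congr rfl fun y hy => ?_
      rw [cf_sub, MonoidAlgebra.coeff_single, Finsupp.single_eq_of_ne (Finset.ne_of_mem_erase hy),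
        sub_zero]
    have h2 : ((v j - MonoidAlgebra.single g (ε : ℤ)).coeff g).natAbs + 1
        = ((v j).coeff g).natAbs := by
      rw [cf_sub, MonoidAlgebra.coeff_single, Finsupp.single_eq_same]
      rcases Int.units_eq_one_or ε with rfl | rfl
      · simp only [Units.val_one, mul_one] at h ⊢
        omega
      · simp only [Units.val_neg, Units.val_one, mul_neg, mul_one] at h ⊢
        omega
    rw [h1]
    omega
  rw [e2, e3, e1, e4]
  omega

/-- a cancelling pair -/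
theorem wt_can (u v : κ → MonoidAlgebra ℤ Γ) (h : wt (u + v) < wt u + wt v) :
    ∃ (j : κ) (g : Γ), (u j).coeff g * (v j).coeff g < 0 := by
  by_contra hcon
  push Not at hcon
  have : wt (u + v) = wt u + wt v := by
    unfold wt
    rw [← Finset.sum_add_distrib]
    exact Finset.sum_congr rfl fun j _ => l1_add_eq _ _ (hcon j)
  omega

/-- vectors of norm one -/
theorem wt_one (v : κ → MonoidAlgebra ℤ Γ) (h : wt v = 1) : ∃ (j : κ) (g : Γ) (ε : ℤˣ),
    v = mo j g ε := by
  have h0 : v ≠ 0 := by rintro rfl; rw [wt_zero] at h; exact absurd h (by norm_num)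
  obtain ⟨j, g, ε, h1⟩ := row_dec v h0
  refine ⟨j, g, ε, ?_⟩
  have h2 : wt (v - mo j g ε) = 0 := by
    have h3 : wt (v - mo j g ε) + 1 = wt v := h1
    omega
  exact sub_eq_zero.1 (wt_eq_zero _ h2)

/-- sign of an integer as a unit -/
theorem exists_sgn (n : ℤ) (hn : n ≠ 0) : ∃ ε : ℤˣ, 0 < n * ε := by
  rcases lt_or_gt_of_ne hn with h | h
  · exact ⟨-1, by simpa using h⟩
  · exact ⟨1, by simpa using h⟩

end Pool.Agent.Helper140_W
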